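import Mathlib

namespace Pool.Agent.Results.MP_469fc6_nt.Two

open Finset

/-- The geometric sum `1 + p + ... + p^a`. -/
def G (p a : ℕ) : ℕ := ∑ k ∈ range (a + 1), p ^ k

lemma Gsucc (p a : ℕ) : G p (a + 1) = G p a + p ^ (a + 1) := by
  simp [G, Finset.sum_range_succ]

lemma Gle (c p a : ℕ) (h : c + 1 ≤ p) : c * G p a ≤ (c + 1) * p ^ a := by
  induction a with
  | zero => simp [G]
  | succ a ih =>
    have h1 : (c + 1) * p ^ a ≤ p * p ^ a := Nat.mul_le_mul_right _ h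
    rw [Gsucc, pow_succ]
    nlinarith

lemma Geq (s a : ℕ) : s * G (s + 1) a + 1 = (s + 1) ^ (a + 1) := by
  induction a with
  | zero => simp [G]
  | succ a ih => rw [Gsucc, pow_succ (s + 1) (a + 1), ← ih]; ring

lemma two (p q a b : ℕ) (hp : p.Prime) (hq : q.Prime) (hpq : p < q) (hb : 1 ≤ b) (ha : 1 ≤ a)
    (h : 2 * (G p a * G q b) = 3 * (p ^ a * q ^ b) + 1) :
    ∃ k, 1 ≤ k ∧ (3 ^ k - 2).Prime ∧ p ^ a * q ^ b = 3 ^ (k - 1) * (3 ^ k - 2) := by
  have hp2 : p ≠ 2 := by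
    rintro rfl
    obtain ⟨a', rfl⟩ : ∃ a', a = a' + 1 := ⟨a - 1, by omega⟩
    rw [pow_succ, mul_right_comm] at h
    omega
  have hp3 : p = 3 := by
    by_contra h3
    have h5 : 5 ≤ p := hp.five_le_of_ne_two_of_ne_three hp2 h3
    have h7 : 7 ≤ q := by
      have : q ≠ 6 := by rintro rfl; exact absurd hq (by norm_num)
      omega
    have m1 := Nat.mul_le_mul (Gle 4 p a h5) (Gle 6 q b h7)
    nlinarith
  subst hp3
  obtain ⟨b, rfl⟩ : ∃ b', b = b' + 1 := ⟨b - 1, by omega⟩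
  obtain ⟨s, rfl⟩ : ∃ s, q = s + 1 := ⟨q - 1, by omega⟩
  have e1 := Geq 2 a
  have e2 := Geq s b
  rw [Gsucc] at h
  norm_num at e1
  have e3 : 2 * G 3 a * G (s + 1) b = (s + 1) ^ (b + 1) + 1 := by
    have : 3 * (3 ^ a * (s + 1) ^ (b + 1)) = (2 * G 3 a + 1) * (s + 1) ^ (b + 1) := by
      rw [e1]; ring
    nlinarith
  have e4 : G (s + 1) b ∣ 2 := by
    have d1 : G (s + 1) b ∣ s * G (s + 1) b + 2 := ⟨2 * G 3 a, by rw [mul_comm (G _ b), e3]; omega⟩
    exact (Nat.dvd_add_right (Dvd.intro_left _ rfl)).mp d1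
  have e5 : b = 0 := by
    by_contra hb0
    obtain ⟨b, rfl⟩ : ∃ b', b = b' + 1 := ⟨b - 1, by omega⟩
    have m1 := Nat.le_of_dvd (by norm_num) e4
    rw [Gsucc] at m1
    have m2 : s + 1 ≤ (s + 1) ^ (b + 1) := Nat.le_self_pow (by omega) _
    omega
  subst e5
  have e6 : G (s + 1) 0 = 1 := by simp [G]
  rw [e6] at e3
  have e7 : 3 ^ (a + 1) - 2 = s + 1 := by
    simp only [zero_add, pow_one, mul_one] at e3
    omega
  exact ⟨a + 1, by omega, e7 ▸ hq, by rw [e7]; simp⟩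

theorem result (n : ℕ) (hn : 0 < n) (h : 2 * ∑ d ∈ n.divisors, d = 3 * n + 1)
    (hw : n.primeFactors.card ≤ 2) :
    ∃ k, 1 ≤ k ∧ (3 ^ k - 2).Prime ∧ n = 3 ^ (k - 1) * (3 ^ k - 2) := by
  have hn0 := hn.ne'
  rw [Nat.sum_divisors hn0] at h
  change 2 * ∏ p ∈ n.primeFactors, G p (n.factorization p) = _ at h
  have hs : ∏ p ∈ n.primeFactors, p ^ n.factorization p = n := by
    conv_rhs => rw [← Nat.prod_factorization_pow_eq_self hn0, Finsupp.prod,
      Nat.support_factorization]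
  have hf : ∀ p ∈ n.primeFactors, p.Prime ∧ 1 ≤ n.factorization p := fun p hp =>
    ⟨Nat.prime_of_mem_primeFactors hp, (Nat.prime_of_mem_primeFactors hp).factorization_pos_of_dvd
      hn0 (Nat.dvd_of_mem_primeFactors hp)⟩
  have hc : n.primeFactors.card = 0 ∨ n.primeFactors.card = 1 ∨ n.primeFactors.card = 2 := by omega
  rcases hc with hc | hc | hc
  · rw [Finset.card_eq_zero] at hc
    rw [hc] at h hs
    simp at h hs
  · exfalso
    obtain ⟨p, hp⟩ := Finset.card_eq_one.mp hc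
    have m1 := hf p (by rw [hp]; simp)
    rw [hp] at h hs
    simp only [Finset.prod_singleton] at h hs
    generalize n.factorization p = a at *
    by_cases h2 : p = 2
    · subst h2
      obtain ⟨a', rfl⟩ : ∃ a', a = a' + 1 := ⟨a - 1, by omega⟩
      rw [pow_succ] at hs
      omega
    · have m2 := Gle 2 p a (by have := m1.1.two_le; omega)
      omega
  · obtain ⟨p, q, hpq, hp⟩ := Finset.card_eq_two.mp hc
    have m1 := hf p (by rw [hp]; simp)
    have m2 := hf q (by rw [hp]; simp)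
    rw [hp] at h hs
    rw [Finset.prod_pair hpq] at h hs
    generalize n.factorization p = a at *
    generalize n.factorization q = b at *
    subst hs
    rcases lt_or_gt_of_ne hpq with hl | hl
    · exact two p q a b m1.1 m2.1 hl m2.2 m1.2 h
    · rw [mul_comm (p ^ a)]
      exact two q p b a m2.1 m1.1 hl m1.2 m2.2 (by rw [mul_comm (G q b), mul_comm (q ^ b)]; exact h)

end Pool.Agent.Results.MP_469fc6_nt.Two
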